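import Pool.Agent.H8.DE.Targets
import Pool.Agent.H8.JS.Targets

/-!
Board det_modules, row P0: from programs to E.
-/

set_option autoImplicit false

namespace Pool.Agent.H40.DE

open Pool.Agent.H69.Sp Pool.Agent.H69.VR Pool.Agent.H8.VR Pool.Agent.H8.JS Pool.Agent.H8.MC
  Pool.Agent.H8.DE

theorem time_bound (C D L N t : ℕ) (hL : 1 ≤ L) (hN : N < 2 ^ (L + 1))
    (ht : t ≤ C * (N + 1) ^ D) : 8 * N + t + 8 + 1 ≤ 2 ^ ((C + 2 * D + 7) * L) := by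
  have h1 : N + 1 ≤ 2 ^ (2 * L) := by
    calc N + 1 ≤ 2 ^ (L + 1) := hN
      _ ≤ 2 ^ (2 * L) := Nat.pow_le_pow_right (by norm_num) (by omega)
  have h2 : t ≤ 2 ^ ((C + 2 * D + 5) * L) := by
    calc t ≤ C * (N + 1) ^ D := ht
      _ ≤ 2 ^ C * (2 ^ (2 * L)) ^ D :=
        Nat.mul_le_mul Nat.lt_two_pow_self.le (Nat.pow_le_pow_left h1 D)
      _ = 2 ^ (C + 2 * L * D) := by rw [← pow_mul, ← pow_add]
      _ ≤ 2 ^ ((C + 2 * D + 5) * L) := by
        refine Nat.pow_le_pow_right (by norm_num) ?_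
        nlinarith [Nat.mul_le_mul_left C hL]
  have h3 : 8 * N ≤ 2 ^ ((C + 2 * D + 5) * L) := by
    calc 8 * N ≤ 2 ^ 3 * 2 ^ (2 * L) := Nat.mul_le_mul (by norm_num) (by omega)
      _ = 2 ^ (3 + 2 * L) := by rw [← pow_add]
      _ ≤ 2 ^ ((C + 2 * D + 5) * L) := by
        refine Nat.pow_le_pow_right (by norm_num) ?_
        nlinarith [Nat.zero_le (C * L), Nat.zero_le (D * L)]
  have h4 : 9 ≤ 2 ^ ((C + 2 * D + 5) * L) := by
    calc 9 ≤ 2 ^ 5 := by norm_num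
      _ ≤ 2 ^ ((C + 2 * D + 5) * L) := by
        refine Nat.pow_le_pow_right (by norm_num) ?_
        nlinarith [Nat.zero_le (C * L), Nat.zero_le (D * L)]
  calc 8 * N + t + 8 + 1 ≤ 4 * 2 ^ ((C + 2 * D + 5) * L) := by omega
    _ = 2 ^ (2 + (C + 2 * D + 5) * L) := by
      rw [pow_add]
      norm_num
    _ ≤ 2 ^ ((C + 2 * D + 7) * L) := by
      refine Nat.pow_le_pow_right (by norm_num) ?_
      nlinarith

theorem pf_P0 (hTM : D_TM) (hCM : D_CM) (hMC : D_MC) (hCT : J_CT) (hT3 : J_T3) (hNU : J_NU) :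
    D_P0 := by
  intro p C D S hp
  obtain ⟨M, hdet, hM⟩ := hMC p
  refine ⟨C + 2 * D + 7, by omega, tm M (1 ∈ S), hTM M (1 ∈ S) hdet, ?_⟩
  intro x
  by_cases hx : x = []
  · subst hx
    obtain ⟨h1, h2⟩ := hT3 M (1 ∈ S)
    refine ⟨?_, ?_⟩
    · simpa using h2
    · rw [h1]
      change num [] ∈ S ↔ 1 ∈ S
      rw [hNU.1]
  · have hL : 1 ≤ x.length := List.length_pos_iff.2 hx
    obtain ⟨b1, b2⟩ := hNU.2.2.1 x
    have hpos : 0 < num x := lt_of_lt_of_le (by positivity) b1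
    obtain ⟨σ, t, h1, h2, h3⟩ := hp (num x) hpos
    have h4 := hCM.2 p (z0 (num x)) σ t h1
    obtain ⟨h5, h6⟩ := hM x σ t h4
    obtain ⟨h7, h8⟩ := hCT M (1 ∈ S) x hx
    refine ⟨?_, ?_⟩
    · intro l c hc
      exact (h8 _ h6 l c hc).trans (time_bound C D x.length (num x) t hL b2 h2)
    · rw [h7, h5, h3]
      rfl

end Pool.Agent.H40.DE
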