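import Pool.Agent.H8.DE.Targets

/-!
Board det_modules, row TM: determinism of the Turing machine of a machine with counters.
-/

set_option autoImplicit false

namespace Pool.Agent.H40.DE

open Pool.Agent.H69.Sp Pool.Agent.H69.VR Pool.Agent.H8.VR Pool.Agent.H8.JS Pool.Agent.H8.MC
  Pool.Agent.H8.DE

theorem isy_inj (M : CW) {i i' : Option Bool} (h : isy M i = isy M i') : i = i' := by
  cases i with
  | none =>
    cases i' with
    | none => rfl
    | some b => exact absurd h (by simp [isy])
  | some b =>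
    cases i' with
    | none => exact absurd h (by simp [isy])
    | some b' =>
      simp only [isy, Sym.bit.injEq] at h
      rw [h]

theorem wsy_inj (M : CW) {w w' : Option M.A} (h : wsy M w = wsy M w') : w = w' := by
  cases w with
  | none =>
    cases w' with
    | none => rfl
    | some b => exact absurd h (by simp [wsy])
  | some b =>
    cases w' with
    | none => exact absurd h (by simp [wsy])
    | some b' =>
      simp only [wsy, Sym.oth.injEq] at h
      exact h

theorem csy_inj (M : CW) {b b' : Bool} (h : csy M b = csy M b') : b = b' := by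
  cases b <;> cases b' <;> simp_all [csy]

theorem pf_TM : D_TM := by
  intro M e hM q a q₁ a₁ d₁ q₂ a₂ d₂ h₁ h₂
  cases q with
  | none =>
    rcases h₁ with ⟨x1, _, x2, x3, x4⟩ | ⟨x1, x2, x3, x4⟩
    · rcases h₂ with ⟨y1, _, y2, y3, y4⟩ | ⟨y1, y2, y3, y4⟩
      · exact ⟨x2.trans y2.symm, x3.trans y3.symm, x4.trans y4.symm⟩
      · exact absurd x1 y1
    · rcases h₂ with ⟨y1, _, y2, y3, y4⟩ | ⟨y1, y2, y3, y4⟩
      · exact absurd y1 x1
      · exact ⟨x2.trans y2.symm, x4.trans y4.symm, x3.trans y3.symm⟩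
  | some q =>
    obtain ⟨q1, i, z, w, adv, dn, w', m, hδ, hq, ha, ha1, hd⟩ := h₁
    obtain ⟨q2, i2, z2, w2, adv2, dn2, w2', m2, hδ2, hq2, ha2, ha21, hd2⟩ := h₂
    have h := ha.symm.trans ha2
    obtain ⟨h1, h2⟩ := Fin.cons_injective2 h
    obtain ⟨h3, h4⟩ := Fin.snoc_injective2 h2
    have ei : i = i2 := isy_inj M h1
    have ez : z = z2 := by
      funext j
      exact csy_inj M (congrFun h3 j)
    have ew : w = w2 := wsy_inj M h4
    subst ei ez ew
    obtain ⟨e1, e2, e3, e4, e5⟩ := hM q i z w q1 adv dn w' m q2 adv2 dn2 w2' m2 hδ hδ2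
    subst e1 e2 e3 e4 e5
    exact ⟨hq.trans hq2.symm, ha1.trans ha21.symm, hd.trans hd2.symm⟩

end Pool.Agent.H40.DE
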